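import Pool.Agent.K6.H85.JL.Ekp

/-!
# The multiplicative Legendre transform: the geometric version
-/

set_option autoImplicit false
set_option linter.unusedSectionVars false

open scoped Manifold Topology

namespace Pool.Agent.K6.H85.JL

open H956GW Module Pool.Agent.Y348.GW Pool.Agent.K6.H85.GW

attribute [local instance 100] LieRing.ofAssociativeRing

section main

variable {H : Type} [CommRing H] [Algebra ℂ H] {n : ℕ} {dg : ℕ → Submodule ℂ H}

/-- **The multiplicative Legendre transform of the intersection form.** -/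
theorem main2.{u₁, u₂, u₃, u₄} [Module.Finite ℂ H] (hn2 : 2 ≤ n) (hd0 : dg 0 = Submodule.span ℂ {1})
    (hmul : ∀ i j, ∀ x ∈ dg i, ∀ y ∈ dg j, x * y ∈ dg (i + j))
    (hbot : ∀ k, n < k → ∀ x ∈ dg k, x = 0) (I : H →ₗ[ℂ] ℂ)
    (hI : ∀ k, k ≠ n → ∀ x ∈ dg k, I x = 0) (hI' : ∀ x ∈ dg n, I x = 0 → x = 0)
    (hPD : ∀ x : H, (∀ y : H, I (x * y) = 0) → x = 0)
    (w₀ : H) (hw₀ : w₀ ∈ dg 1) (hw₀n : I (w₀ ^ n) ≠ 0)
    (B : Type) [AddCommGroup B] (g : GWNumbers B H) (hg : g.IsAspherical I)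
    (A : H → H → H → H) (hA : IsGWConnection I (dg 1) g.prepotential A)
    (S : Type) [NormedAddCommGroup S] [NormedSpace ℂ S] (c : S ≃ₗ[ℂ] dg 1) (t₀ : S)
    (hloc : IsLocallySubquotientOfSemisimple.{u₁, u₂, u₃, u₄}
      (fun t v h => A (c t) (c v) h) (filt dg) t₀) :
    ∃ M : MultilinearMap ℂ (fun _ : Fin n => ↥(Rk dg (n - 1))) ℂ,
      (∀ (σ : Equiv.Perm (Fin n)) (x : Fin n → ↥(Rk dg (n - 1))), M (x ∘ σ) = M x) ∧
      ∀ w ∈ dg 1, I (w ^ n) ≠ 0 → ∀ ξ : ↥(Rk dg (n - 1)), (ξ : H) = w ^ (n - 1) →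
        ∀ (i : Fin n) (η : ↥(Rk dg (n - 1))),
          M (Function.update (fun _ => ξ) i η) = I (w ^ n) ^ (n - 2) * I (w * η) := by
  classical
  have hn : 1 ≤ n := by omega
  -- Poincaré duality for the subring
  have hpdR : ∀ b ∈ Algebra.adjoin ℂ (dg 1 : Set H),
      (∀ a ∈ Algebra.adjoin ℂ (dg 1 : Set H), I (a * b) = 0) → b = 0 := by
    intro b hb hab
    by_contra hb0
    exact criterion.{u₁, u₂, u₃, u₄} hd0 hmul hbot I hI hI' hPD w₀ hw₀ hw₀n b hb hb0 hab B g hg A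
      hA S c t₀ hloc
  obtain ⟨G, _, _, M, _, _, _, _, Γ, _, _, E, _, _, E', _, _, X, Y, m₀, hX, hY, hloc⟩ := hloc
  have h10 : (1 : H) ∈ dg 0 := by rw [hd0]; exact Submodule.mem_span_singleton_self _
  have : FiniteDimensional ℂ E' := by
    obtain ⟨-, T, -⟩ := hloc
    exact LinearEquiv.finiteDimensional (T t₀)
  let c' : S →ₗ[ℂ] H := (dg 1).subtype ∘ₗ c.toLinearMap
  have hc' : ∀ v, c' v ∈ dg 1 := fun v => (c v).2
  have hrange : Set.range c' = (dg 1 : Set H) := by
    ext x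
    constructor
    · rintro ⟨v, rfl⟩; exact hc' v
    · intro hx
      refine ⟨c.symm ⟨x, hx⟩, ?_⟩
      change ((c (c.symm ⟨x, hx⟩) : dg 1) : H) = x
      rw [c.apply_symm_apply]
  have hrange' : LinearMap.range c' = dg 1 := SetLike.coe_injective hrange
  have hRs : Rsub c' = Algebra.adjoin ℂ (dg 1 : Set H) := by
    change Algebra.adjoin ℂ (Set.range c') = _
    rw [hrange]
  have hpow : ∀ v k, c' v ^ k ∈ dg k := by
    intro v k
    induction k with
    | zero => rw [pow_zero]; exact h10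
    | succ k ih => rw [pow_succ]; exact hmul _ _ _ ih _ (hc' v)
  obtain ⟨𝔞, 𝒢, hN, hmulA, hδA, hone⟩ := exists_normalised G M Γ E' c' (K := n) hn
    (fun x => hbot (n + 1) (Nat.lt_succ_self n) _ (hpow x (n + 1))) Set.univ
    (fun t v h => A (c t) (c v) h)
    (fun t _ v h => connection_eq g hg hPD hA (hc' t) (hc' v) h) (filt dg)
    (p₀ := 0) (p₁ := 2) (by rw [filt_zero, hd0]) (by rw [filt_two hd0, hrange']) t₀ Y
    (hX.subquotient hY) m₀ hloc
  -- the graded ring
  have hfinR : FiniteDimensional ℂ (Rsub c') :=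
    inferInstanceAs (FiniteDimensional ℂ (Subalgebra.toSubmodule (Rsub c')))
  let V' : Submodule ℂ (Rsub c') := LinearMap.range (cRmap c')
  let I' : Rsub c' →ₗ[ℂ] ℂ := I ∘ₗ (Rsub c').val.toLinearMap
  have hgen : ⨆ k : ℕ, V' ^ k = ⊤ := gen_of_adjoin c'
  have hVdg : ∀ k : ℕ, ∀ x ∈ V' ^ k, (x : H) ∈ dg k := by
    intro k
    induction k with
    | zero =>
      intro x hx
      rw [pow_zero] at hx
      obtain ⟨z, rfl⟩ := Submodule.mem_one.1 hx
      change algebraMap ℂ H z ∈ dg 0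
      rw [Algebra.algebraMap_eq_smul_one]
      exact (dg 0).smul_mem _ h10
    | succ k ih =>
      intro x hx
      rw [pow_succ] at hx
      refine Submodule.mul_induction_on hx ?_ ?_
      · rintro a ha _ ⟨v, rfl⟩
        exact hmul _ _ _ (ih a ha) _ (hc' v)
      · intro a b ha hb
        exact (dg (k + 1)).add_mem ha hb
  have hI0 : ∀ k : ℕ, k ≠ n → ∀ x ∈ V' ^ k, I' x = 0 := fun k hk x hx => hI k hk _ (hVdg k x hx)
  have hpd' : ∀ x : Rsub c', (∀ y, I' (x * y) = 0) → x = 0 := by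
    intro x hx
    apply Subtype.ext
    apply hpdR _ (by rw [← hRs]; exact x.2)
    intro a ha
    have h1 := hx ⟨a, by rw [hRs]; exact ha⟩
    rw [mul_comm] at h1
    exact h1
  obtain ⟨δ, hδ⟩ := exists_grading hgen hI0 hpd'
  have hset : Setup V' n δ I' 𝔞 :=
    { gen := hgen
      top := fun k hk => by
        rw [eq_bot_iff]
        intro x hx
        rw [Submodule.mem_bot]
        exact Subtype.ext (hbot k hk _ (hVdg k x hx))
      δV := hδ
      I0 := hI0
      pd := hpd'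
      mem_mul := by
        rintro _ ⟨v, rfl⟩
        exact hmulA v
      mem_δ := hδA δ fun v k =>
        hδ k _ (Submodule.pow_mem_pow V' (LinearMap.mem_range_self (cRmap c') v) k)
      one_mem := hone
      nil := fun X hX hXn hXt => hN.eq_zero_of_isNilpotent hX hXt hXn }
  -- homogeneous elements
  have hδmul : ∀ (l : ℕ), ∀ y ∈ V' ^ l, ∀ x, δ (x * y) = δ x * y + (l : ℂ) • (x * y) := by
    intro l y hy x
    refine hset.ind (p := fun x => δ (x * y) = δ x * y + (l : ℂ) • (x * y)) ?_ ?_ x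
    · intro k x hx
      have h1 : x * y ∈ V' ^ (k + l) := by rw [pow_add]; exact Submodule.mul_mem_mul hx hy
      rw [hδ _ _ h1, hδ _ _ hx, smul_mul_assoc, ← add_smul]
      push_cast
      rfl
    · intro a b ha hb
      rw [add_mul, map_add, map_add, ha, hb, add_mul, smul_add]
      abel
  have hIδ : ∀ x, I' (δ x) = (n : ℂ) * I' x := by
    intro x
    refine hset.ind (p := fun x => I' (δ x) = (n : ℂ) * I' x) ?_ ?_ x
    · intro k x hx
      rw [hδ _ _ hx, map_smul, smul_eq_mul]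
      by_cases hk : k = n
      · rw [hk]
      · rw [hI0 k hk x hx, mul_zero, mul_zero]
    · intro a b ha hb
      rw [map_add, map_add, ha, hb, map_add, mul_add]
  have hhom : ∀ k : ℕ, ∀ x : Rsub c', (x : H) ∈ dg k → x ∈ V' ^ k := by
    intro k x hx
    apply hset.mem_of_eigen
    rw [← sub_eq_zero]
    apply hpd'
    intro y
    refine hset.ind (p := fun y => I' ((δ x - (k : ℂ) • x) * y) = 0) ?_ ?_ y
    · intro l y hy
      have h1 : I' (δ x * y) = ((n : ℂ) - l) * I' (x * y) := by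
        have h2 := congrArg I' (hδmul l y hy x)
        rw [hIδ, map_add, map_smul, smul_eq_mul] at h2
        linear_combination -h2
      rw [sub_mul, smul_mul_assoc, map_sub, map_smul, smul_eq_mul, h1]
      by_cases hkl : k + l = n
      · rw [← hkl]; push_cast; ring
      · have h3 : I' (x * y) = 0 := hI (k + l) hkl _ (hmul _ _ _ hx _ (hVdg l y hy))
        rw [h3]; ring
    · intro a b ha hb
      rw [mul_add, map_add, ha, hb, add_zero]
  have hRk : ∀ k : ℕ, ∀ x ∈ Rk dg k, ∃ y ∈ V' ^ k, (y : H) = x := by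
    rintro k x ⟨hx, hx'⟩
    have hx2 : x ∈ Rsub c' := by rw [hRs]; exact hx
    exact ⟨⟨x, hx2⟩, hhom k ⟨x, hx2⟩ hx', rfl⟩
  have hRk' : ∀ k : ℕ, ∀ y ∈ V' ^ k, (y : H) ∈ Rk dg k := by
    intro k y hy
    refine ⟨?_, hVdg k y hy⟩
    change (y : H) ∈ Algebra.adjoin ℂ (dg 1 : Set H)
    rw [← hRs]
    exact y.2
  have hlift : ∀ w ∈ dg 1, ∃ u ∈ V', (u : H) = w := by
    intro w hw
    obtain ⟨v, hv⟩ : w ∈ Set.range c' := by rw [hrange]; exact hw
    exact ⟨cRmap c' v, ⟨v, rfl⟩, hv⟩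
  obtain ⟨u₀, hu₀, hu₀w⟩ := hlift w₀ hw₀
  have hpowI : ∀ u : Rsub c', I' (u ^ n) = I ((u : H) ^ n) := fun u => rfl
  have hu₀n : I' (u₀ ^ n) ≠ 0 := by rw [hpowI, hu₀w]; exact hw₀n
  obtain ⟨M, hM1, hM2⟩ := ekp hset hn2 hu₀ hu₀n
  have hmem : ∀ x : ↥(Rk dg (n - 1)), (⟨x, by rw [hRs]; exact x.2.1⟩ : Rsub c') ∈ V' ^ (n - 1) :=
    fun x => hhom (n - 1) _ x.2.2
  let ψ : ↥(Rk dg (n - 1)) →ₗ[ℂ] ↥(V' ^ (n - 1)) :=
    { toFun := fun x => ⟨_, hmem x⟩
      map_add' := fun x y => rfl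
      map_smul' := fun c x => rfl }
  have hψ : ∀ x, ((ψ x : Rsub c') : H) = x := fun x => rfl
  refine ⟨M.compLinearMap fun _ => ψ, ?_, ?_⟩
  · intro σ x
    simp only [MultilinearMap.compLinearMap_apply]
    exact hM1 σ fun i => ψ (x i)
  · intro w hw hwn ξ hξ i η
    obtain ⟨u, hu, huw⟩ := hlift w hw
    simp only [MultilinearMap.compLinearMap_apply]
    have h1 : (fun j => ψ (Function.update (fun _ => ξ) i η j)) =
        Function.update (fun _ => ψ ξ) i (ψ η) := by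
      funext j
      by_cases hj : j = i
      · subst hj; rw [Function.update_self, Function.update_self]
      · rw [Function.update_of_ne hj, Function.update_of_ne hj]
    rw [h1]
    have hun : I' (u ^ n) ≠ 0 := by rw [hpowI, huw]; exact hwn
    have h2 := hM2 u hu hun (ψ ξ) (Subtype.ext (by
      rw [hψ, hξ, Subalgebra.coe_pow, huw])) i (ψ η)
    rw [h2, hpowI, huw]
    congr 1
    change I ((u : H) * (η : H)) = _
    rw [huw]

end main

end Pool.Agent.K6.H85.JL
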