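import Mathlib

/-!
# Binary forms whose Hessian has no zeros outside the zeros of the form
-/

set_option autoImplicit false

namespace Pool.Agent.K6.H85.JL

open Polynomial

/-- the Hessian of a form of degree `n`, dehomogenised -/
noncomputable def hes (n : ℕ) (F : ℂ[X]) : ℂ[X] :=
  C (n : ℂ) * F * derivative (derivative F) - C ((n : ℂ) - 1) * derivative F ^ 2

theorem hes_mult {n k : ℕ} (hk : k + 1 < n) {α : ℂ} {g : ℂ[X]} (hg : g.eval α ≠ 0) :
    ∃ h : ℂ[X], h.eval α ≠ 0 ∧ hes n ((X - C α) ^ (k + 1) * g) = h * (X - C α) ^ (2 * k) := by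
  let a : ℂ[X] := C ((k : ℂ) + 1) * g + (X - C α) * derivative g
  refine ⟨C (n : ℂ) * (C (k : ℂ) * g * a + (X - C α) * g * derivative a) - C ((n : ℂ) - 1) * a ^ 2,
    ?_, ?_⟩
  · have ha : a.eval α = (k + 1) * g.eval α := by simp [a]
    have h1 : (C (n : ℂ) * (C (k : ℂ) * g * a + (X - C α) * g * derivative a) -
        C ((n : ℂ) - 1) * a ^ 2).eval α = (k + 1) * (k + 1 - n) * g.eval α ^ 2 := by
      simp only [eval_sub, eval_mul, eval_add, eval_C, eval_X, eval_pow, ha, sub_self, zero_mul,
        add_zero]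
      ring
    rw [h1]
    refine mul_ne_zero (mul_ne_zero ?_ ?_) (pow_ne_zero _ hg)
    · exact_mod_cast Nat.succ_ne_zero k
    · rw [sub_ne_zero]
      exact_mod_cast (by omega : k + 1 ≠ n)
  · have h1 : derivative ((X - C α) ^ (k + 1) * g) = (X - C α) ^ k * a := by
      rw [derivative_mul, derivative_X_sub_C_pow]
      simp only [a, Nat.add_sub_cancel, Nat.cast_add, Nat.cast_one, C_add, C_1, map_natCast]
      ring
    have h2 : (X - C α) ^ (k + 1) * derivative ((X - C α) ^ k) =
        C (k : ℂ) * (X - C α) ^ (2 * k) := by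
      rcases Nat.eq_zero_or_pos k with hk | hk
      · subst hk; simp
      · obtain ⟨j, rfl⟩ : ∃ j, k = j + 1 := ⟨k - 1, by omega⟩
        rw [derivative_X_sub_C_pow, Nat.add_sub_cancel]
        simp only [Nat.cast_add, Nat.cast_one, C_add, C_1, map_natCast]
        ring
    have h3 : (X - C α) ^ (k + 1) * g * derivative ((X - C α) ^ k * a) =
        (X - C α) ^ (2 * k) * (C (k : ℂ) * g * a + (X - C α) * g * derivative a) := by
      rw [derivative_mul]
      linear_combination g * a * h2
    unfold hes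
    rw [h1, mul_assoc (C (n : ℂ)), h3]
    ring

theorem hes_pow {n : ℕ} (c α : ℂ) : hes n (C c * (X - C α) ^ n) = 0 := by
  unfold hes
  rw [derivative_C_mul, derivative_X_sub_C_pow]
  rcases n with _ | _ | m
  · simp
  · simp
  · rw [show m + 1 + 1 - 1 = m + 1 by omega, derivative_C_mul, derivative_mul,
      derivative_X_sub_C_pow, Nat.add_sub_cancel]
    simp only [map_natCast, derivative_natCast, zero_mul, zero_add]
    push_cast
    simp only [C_sub, C_1, C_add, map_natCast, map_add, map_one]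
    ring

/-- **Binary forms.** -/
theorem binary {n : ℕ} (hn : 2 ≤ n) {F : ℂ[X]} (hF : F.natDegree = n)
    (hP0 : hes n F ≠ 0) (hP : (hes n F).natDegree = 2 * n - 4)
    (h : ∀ x, F.eval x ≠ 0 → (hes n F).eval x ≠ 0) :
    ∃ (c α β : ℂ) (p q : ℕ), c ≠ 0 ∧ α ≠ β ∧ 1 ≤ p ∧ 1 ≤ q ∧ p + q = n ∧
      F = C c * (X - C α) ^ p * (X - C β) ^ q := by
  classical
  have hF0 : F ≠ 0 := by
    intro h0
    rw [h0, natDegree_zero] at hF
    omega
  have hroots : F.roots.card = n := by
    rw [← hF]
    exact (splits_iff_card_roots.1 (IsAlgClosed.splits F))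
  have hrootsP : (hes n F).roots.card = 2 * n - 4 := by
    rw [← hP]
    exact (splits_iff_card_roots.1 (IsAlgClosed.splits _))
  -- the multiplicities
  have hm : ∀ α ∈ F.roots.toFinset, 1 ≤ F.rootMultiplicity α ∧ F.rootMultiplicity α < n ∧
      (hes n F).rootMultiplicity α = 2 * (F.rootMultiplicity α - 1) := by
    intro α hα
    have hα' : α ∈ F.roots := Multiset.mem_toFinset.1 hα
    have h1 : 1 ≤ F.rootMultiplicity α :=
      (rootMultiplicity_pos hF0).2 ((mem_roots hF0).1 hα')
    obtain ⟨g, hg, hgα⟩ := exists_eq_pow_rootMultiplicity_mul_and_not_dvd F hF0 α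
    rw [dvd_iff_isRoot] at hgα
    have hg0 : g ≠ 0 := by rintro rfl; exact hgα (by simp)
    have hdeg : F.rootMultiplicity α + g.natDegree = n := by
      rw [← hF]
      conv_rhs => rw [hg]
      rw [natDegree_mul (pow_ne_zero _ (X_sub_C_ne_zero α)) hg0, natDegree_pow, natDegree_X_sub_C,
        mul_one]
    have h2 : F.rootMultiplicity α < n := by
      by_contra hlt
      have h3 : g.natDegree = 0 := by omega
      rw [natDegree_eq_zero] at h3
      obtain ⟨c, hc⟩ := h3
      apply hP0
      have h4 : F.rootMultiplicity α = n := by omega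
      rw [hg, h4, ← hc, mul_comm, hes_pow]
    refine ⟨h1, h2, ?_⟩
    obtain ⟨k, hk⟩ : ∃ k, F.rootMultiplicity α = k + 1 := ⟨F.rootMultiplicity α - 1, by omega⟩
    rw [hk] at hg h2 ⊢
    obtain ⟨q, hq, hq'⟩ := hes_mult h2 hgα
    rw [← hg] at hq'
    have hq0 : q ≠ 0 := by rintro rfl; exact hq (by simp)
    rw [hq', rootMultiplicity_mul_X_sub_C_pow hq0, rootMultiplicity_eq_zero hq]
    omega
  have hsub : (hes n F).roots.toFinset ⊆ F.roots.toFinset := by
    intro α hα
    rw [Multiset.mem_toFinset, mem_roots hP0] at hα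
    rw [Multiset.mem_toFinset, mem_roots hF0]
    by_contra hne
    exact h α hne hα
  have e1 : ∑ α ∈ F.roots.toFinset, F.rootMultiplicity α = n := by
    rw [← hroots, ← Multiset.toFinset_sum_count_eq]
    exact Finset.sum_congr rfl fun α _ => (count_roots F).symm
  have e2 : ∑ α ∈ F.roots.toFinset, 2 * (F.rootMultiplicity α - 1) = 2 * n - 4 := by
    rw [← hrootsP, ← Multiset.toFinset_sum_count_eq, Finset.sum_subset hsub]
    · exact Finset.sum_congr rfl fun α hα => by rw [count_roots, (hm α hα).2.2]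
    · intro α _ hα
      rw [Multiset.count_eq_zero]
      rwa [Multiset.mem_toFinset] at hα
  have e3 : ∑ α ∈ F.roots.toFinset, 2 * (F.rootMultiplicity α - 1) +
      2 * F.roots.toFinset.card = 2 * n := by
    rw [← e1, Finset.mul_sum, Finset.card_eq_sum_ones, Finset.mul_sum, ← Finset.sum_add_distrib]
    refine Finset.sum_congr rfl fun α hα => ?_
    have := (hm α hα).1
    omega
  have hcard : F.roots.toFinset.card = 2 := by omega
  obtain ⟨α, β, hαβ, hset⟩ := Finset.card_eq_two.1 hcard
  have hα : α ∈ F.roots.toFinset := by rw [hset]; simp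
  have hβ : β ∈ F.roots.toFinset := by rw [hset]; simp
  refine ⟨F.leadingCoeff, α, β, F.rootMultiplicity α, F.rootMultiplicity β,
    leadingCoeff_ne_zero.2 hF0, hαβ, (hm α hα).1, (hm β hβ).1, ?_, ?_⟩
  · rw [hset, Finset.sum_pair hαβ] at e1
    exact e1
  · have h1 := (IsAlgClosed.splits F).eq_prod_roots
    have h2 : (F.roots.map fun a => X - C a).prod =
        ∏ a ∈ F.roots.toFinset, (X - C a) ^ F.roots.count a := by
      rw [Finset.prod_multiset_map_count]
    rw [h2, hset, Finset.prod_pair hαβ, count_roots, count_roots, ← mul_assoc] at h1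
    exact h1

end Pool.Agent.K6.H85.JL
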