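import Pool.Agent.K6.H85.GW.Asm

/-!
# The multiplicative Legendre transform of the intersection form
-/

set_option autoImplicit false
set_option linter.unusedSectionVars false

namespace Pool.Agent.K6.H85.JL

open Module Pool.Agent.K6.H85.GW Pool.Agent.Y348.GW

attribute [local instance 100] LieRing.ofAssociativeRing

open Polynomial in
/-- the coefficients of a polynomial with values in a subspace -/
theorem coeffs_mem {M : Type*} [AddCommGroup M] [Module ℂ M] (U : Submodule ℂ M) (N : ℕ)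
    (f : ℕ → M) {S : Set ℂ} (hS : S.Infinite)
    (h : ∀ s ∈ S, ∑ a ∈ Finset.range N, s ^ a • f a ∈ U) (a : ℕ) (ha : a < N) : f a ∈ U := by
  rw [← Subspace.forall_mem_dualAnnihilator_apply_eq_zero_iff]
  intro l hl
  let P : ℂ[X] := ∑ a ∈ Finset.range N, C (l (f a)) * X ^ a
  have hP : P = 0 := by
    refine Polynomial.eq_zero_of_infinite_isRoot P (hS.mono ?_)
    intro s hs
    have h1 := (Submodule.mem_dualAnnihilator l).1 hl _ (h s hs)
    change P.eval s = 0
    rw [← h1, map_sum, eval_finsetSum]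
    refine Finset.sum_congr rfl fun a _ => ?_
    rw [eval_mul, eval_C, eval_pow, eval_X, map_smul, smul_eq_mul, mul_comm]
  have h1 : P.coeff a = 0 := by rw [hP, coeff_zero]
  simp only [P, finsetSum_coeff, coeff_C_mul, coeff_X_pow] at h1
  rw [Finset.sum_eq_single a] at h1
  · simpa using h1
  · intro b _ hb
    rw [if_neg (Ne.symm hb), mul_zero]
  · intro h
    exact absurd (Finset.mem_range.2 ha) h

open Polynomial in
/-- a line through a point where a form does not vanish -/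
theorem infinite_line {A : Type*} [CommRing A] [Algebra ℂ A] (I : A →ₗ[ℂ] ℂ) (n : ℕ) {w : A}
    (hw : I (w ^ n) ≠ 0) (v : A) : {s : ℂ | I ((w + s • v) ^ n) ≠ 0}.Infinite := by
  let P : ℂ[X] := ∑ a ∈ Finset.range (n + 1), C (I (v ^ a * w ^ (n - a) * (n.choose a : A))) * X ^ a
  have hev : ∀ s, P.eval s = I ((w + s • v) ^ n) := by
    intro s
    rw [add_comm w, add_pow, map_sum, eval_finsetSum]
    refine Finset.sum_congr rfl fun a _ => ?_
    rw [eval_mul, eval_C, eval_pow, eval_X, _root_.smul_pow, smul_mul_assoc, smul_mul_assoc, map_smul,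
      smul_eq_mul, mul_comm]
  have hP : P ≠ 0 := by
    intro h0
    apply hw
    have := hev 0
    rw [h0, eval_zero, zero_smul, add_zero] at this
    exact this.symm
  have hfin : {s : ℂ | P.IsRoot s}.Finite := Polynomial.finite_setOfPred_isRoot hP
  have : {s : ℂ | I ((w + s • v) ^ n) ≠ 0} = {s : ℂ | P.IsRoot s}ᶜ := by
    ext s
    rw [Set.mem_ofPred_eq, Set.mem_compl_iff, Set.mem_ofPred_eq, Polynomial.IsRoot, hev]
  rw [this]
  exact hfin.infinite_compl

/-- the powers of the elements of an open set span the products -/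
theorem pow_span {A : Type*} [CommRing A] [Algebra ℂ A] (V : Submodule ℂ A) (I : A →ₗ[ℂ] ℂ) (n : ℕ)
    (m : ℕ) : ∀ j : ℕ, j ≤ m → ∀ z ∈ V ^ j, ∀ w ∈ V, I (w ^ n) ≠ 0 →
      z * w ^ (m - j) ∈ Submodule.span ℂ {x : A | ∃ w ∈ V, I (w ^ n) ≠ 0 ∧ x = w ^ m} := by
  intro j
  induction j with
  | zero =>
    intro _ z hz w hw hwn
    rw [pow_zero] at hz
    obtain ⟨c, rfl⟩ := Submodule.mem_one.1 hz
    rw [Nat.sub_zero, Algebra.algebraMap_eq_smul_one, smul_mul_assoc, one_mul]
    exact Submodule.smul_mem _ _ (Submodule.subset_span ⟨w, hw, hwn, rfl⟩)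
  | succ j ih =>
    intro hj z hz w hw hwn
    rw [pow_succ] at hz
    refine Submodule.mul_induction_on hz ?_ ?_
    · intro z hz u hu
      obtain ⟨k, hk⟩ : ∃ k, m - j = k + 1 := ⟨m - (j + 1), by omega⟩
      have hk' : m - (j + 1) = k := by omega
      have h1 := coeffs_mem (Submodule.span ℂ {x : A | ∃ w ∈ V, I (w ^ n) ≠ 0 ∧ x = w ^ m})
        (m - j + 1) (fun a => (m - j).choose a • (z * (u ^ a * w ^ (m - j - a))))
        (infinite_line I n hwn u) (by
          intro s hs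
          have h2 := ih (by omega) z hz (w + s • u) (V.add_mem hw (V.smul_mem s hu)) hs
          rw [add_comm w, add_pow, Finset.mul_sum] at h2
          convert h2 using 2 with a
          rw [smul_pow, smul_mul_assoc, smul_mul_assoc, mul_smul_comm, nsmul_eq_mul]
          congr 1
          ring) 1 (by omega)
      have h3 : (m - j).choose 1 • (z * (u ^ 1 * w ^ (m - j - 1))) =
          ((m - j : ℕ) : ℂ) • (z * u * w ^ (m - (j + 1))) := by
        rw [Nat.choose_one_right, pow_one, hk', ← Nat.cast_smul_eq_nsmul ℂ, mul_assoc,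
          show m - j - 1 = k by omega]
      rw [h3] at h1
      have h4 := Submodule.smul_mem _ (((m - j : ℕ) : ℂ)⁻¹) h1
      rwa [smul_smul, inv_mul_cancel₀ (by rw [hk]; exact_mod_cast Nat.succ_ne_zero k),
        one_smul] at h4
    · intro a b ha hb
      rw [add_mul]
      exact Submodule.add_mem _ ha hb

variable {R : Type*} [CommRing R] [Algebra ℂ R] [FiniteDimensional ℂ R]
  {V : Submodule ℂ R} {n : ℕ} {δ : End ℂ R} {I : R →ₗ[ℂ] ℂ} {𝔞 : LieSubalgebra ℂ (End ℂ R)}

theorem span_eq (h : Setup V n δ I 𝔞) {w₀ : R} (hw₀ : w₀ ∈ V) (hwn : I (w₀ ^ n) ≠ 0) (m : ℕ)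
    {z : R} (hz : z ∈ V ^ m) :
    z ∈ Submodule.span ℂ {x : R | ∃ w ∈ V, I (w ^ n) ≠ 0 ∧ x = w ^ m} := by
  have := pow_span V I n m m le_rfl z hz w₀ hw₀ hwn
  rwa [Nat.sub_self, pow_zero, mul_one] at this

/-- `f` is the dual Lefschetz operator of `w` -/
structure IsDual (V : Submodule ℂ R) (n : ℕ) (δ : End ℂ R) (𝔞 : LieSubalgebra ℂ (End ℂ R))
    (w : R) (f : End ℂ R) : Prop where
  mem : f ∈ 𝔞
  deg : Deg δ (-1) f
  rel : br (mu w) f = (2 : ℂ) • δ - (n : ℂ) • (1 : End ℂ R)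

theorem IsDual.mul (h : Setup V n δ I 𝔞) {w : R} {f : End ℂ R} (hf : IsDual V n δ 𝔞 w f) (k : ℕ)
    {x : R} (hx : x ∈ V ^ k) : f (w * x) = w * f x - (2 * k - n : ℂ) • x := by
  have h1 := congrArg (fun Y : End ℂ R => Y x) hf.rel
  have h2 : w * f x - f (w * x) = (2 : ℂ) • δ x - (n : ℂ) • x := h1
  rw [h.δV k x hx, smul_smul, ← sub_smul] at h2
  rw [← h2]; abel

theorem IsDual.pow (h : Setup V n δ I 𝔞) {w : R} (hw : w ∈ V) {f : End ℂ R}
    (hf : IsDual V n δ 𝔞 w f) (m : ℕ) :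
    f (w ^ (m + 1)) = ((m + 1) * (n - m) : ℂ) • w ^ m := by
  have hwk : ∀ k : ℕ, w ^ k ∈ V ^ k := fun k => Submodule.pow_mem_pow _ hw k
  have h1 : f 1 = 0 := h.low_zero hf.deg (by rw [pow_zero]; exact Submodule.one_le.1 le_rfl)
  induction m with
  | zero =>
    have h2 := hf.mul h 0 (x := 1) (by rw [pow_zero]; exact Submodule.one_le.1 le_rfl)
    rw [zero_add, pow_one, pow_zero, ← mul_one w, h2, h1, mul_zero, zero_sub, ← neg_smul]
    congr 1
    push_cast
    ring
  | succ m ih =>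
    rw [pow_succ' w (m + 1), hf.mul h _ (hwk (m + 1)), ih, mul_smul_comm, ← pow_succ', ← sub_smul]
    congr 1
    push_cast
    ring

/-- the dual Lefschetz operator is selfadjoint -/
theorem IsDual.selfadjoint (h : Setup V n δ I 𝔞) {w : R} (hw : w ∈ V) {f : End ℂ R}
    (hf : IsDual V n δ 𝔞 w f) (x y : R) : I (f x * y) = I (x * f y) := by
  have hinj := h.hard_lefschetz hw hf.deg hf.rel
  -- moving `w`
  have hmove : ∀ (k l : ℕ), ∀ x ∈ V ^ k, ∀ y ∈ V ^ l,
      I (f (w * x) * y) - I (w * x * f y) = I (f x * (w * y)) - I (x * f (w * y)) := by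
    intro k l x hx y hy
    rw [hf.mul h k hx, hf.mul h l hy, sub_mul, mul_sub, smul_mul_assoc, mul_smul_comm, map_sub,
      map_sub, map_smul, map_smul, smul_eq_mul, smul_eq_mul]
    have e1 : w * f x * y = f x * (w * y) := by ring
    have e2 : w * x * f y = x * (w * f y) := by ring
    rw [e1, e2]
    by_cases hkl : k + l = n
    · have : (n : ℂ) = k + l := by rw [← hkl]; push_cast; ring
      rw [this]
      ring
    · have h0 : I (x * y) = 0 := h.I0 (k + l) hkl _ (by rw [pow_add]; exact Submodule.mul_mem_mul hx hy)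
      rw [h0]
      ring
  have hmoves : ∀ (m k l : ℕ), ∀ x ∈ V ^ k, ∀ y ∈ V ^ l,
      I (f (w ^ m * x) * y) - I (w ^ m * x * f y) =
        I (f x * (w ^ m * y)) - I (x * f (w ^ m * y)) := by
    intro m
    induction m with
    | zero => intro k l x _ y _; simp
    | succ m ih =>
      intro k l x hx y hy
      have hx' : w ^ m * x ∈ V ^ (m + k) := by
        rw [pow_add]; exact Submodule.mul_mem_mul (Submodule.pow_mem_pow _ hw m) hx
      have hy' : w * y ∈ V ^ (l + 1) := by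
        rw [pow_succ']; exact Submodule.mul_mem_mul hw hy
      have e3 : w ^ (m + 1) * y = w ^ m * (w * y) := by ring
      rw [pow_succ', mul_assoc w, hmove _ _ _ hx' _ hy, ih _ _ _ hx _ hy', ← pow_succ', e3]
  -- the homogeneous case
  have key : ∀ (k l : ℕ), k ≤ l → k + l = n + 1 → ∀ x ∈ V ^ k, ∀ y ∈ V ^ l,
      I (f x * y) = I (x * f y) := by
    intro k
    induction k with
    | zero =>
      intro l _ hl x hx y hy
      rw [h.top l (by omega)] at hy
      rw [(Submodule.mem_bot ℂ).1 hy, map_zero, mul_zero, mul_zero]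
    | succ k ih =>
      intro l hkl hl x hx y hy
      obtain ⟨z, hz, rfl⟩ := h.surj hw (k := k) (by omega) (hinj k (by omega)) y (by
        rwa [show n - k = l by omega])
      have hzx : w ^ (n - 2 * k) * x ∈ V ^ (l + 1) := by
        rw [show l + 1 = (n - 2 * k) + (k + 1) by omega, pow_add]
        exact Submodule.mul_mem_mul (Submodule.pow_mem_pow _ hw _) hx
      have h1 := hmoves (n - 2 * k) (k + 1) k x hx z hz
      have h2 := ih (l + 1) (by omega) (by omega) z hz _ hzx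
      rw [mul_comm (f z), mul_comm z] at h2
      rw [← sub_eq_zero, ← h1, ← h2, sub_self]
  refine h.ind (p := fun x => I (f x * y) = I (x * f y)) ?_ ?_ x
  · intro k x hx
    refine h.ind (p := fun y => I (f x * y) = I (x * f y)) ?_ ?_ y
    · intro l y hy
      by_cases hkl : k + l = n + 1
      · rcases le_total k l with h1 | h1
        · exact key k l h1 hkl x hx y hy
        · rw [mul_comm, mul_comm x]
          exact (key l k h1 (by omega) y hy x hx).symm
      · have h1 : I (f x * y) = 0 := by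
          rcases Nat.eq_zero_or_pos k with hk | hk
          · subst hk
            rw [h.low_zero hf.deg hx, zero_mul, map_zero]
          · obtain ⟨k', rfl⟩ : ∃ k', k = k' + 1 := ⟨k - 1, by omega⟩
            refine h.I0 (k' + l) (by omega) _ ?_
            rw [pow_add]; exact Submodule.mul_mem_mul (h.low_mem hf.deg hx) hy
        have h2 : I (x * f y) = 0 := by
          rcases Nat.eq_zero_or_pos l with hl | hl
          · subst hl
            rw [h.low_zero hf.deg hy, mul_zero, map_zero]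
          · obtain ⟨l', rfl⟩ : ∃ l', l = l' + 1 := ⟨l - 1, by omega⟩
            refine h.I0 (k + l') (by omega) _ ?_
            rw [pow_add]; exact Submodule.mul_mem_mul hx (h.low_mem hf.deg hy)
        rw [h1, h2]
    · intro a b ha hb
      rw [map_add, mul_add, mul_add, map_add, map_add, ha, hb]
  · intro a b ha hb
    rw [map_add, add_mul, add_mul, map_add, map_add, ha, hb]

/-- the selfadjoint operators of degree `-1` in the Lie algebra -/
def low' (V : Submodule ℂ R) (n : ℕ) (δ : End ℂ R) (I : R →ₗ[ℂ] ℂ) (𝔞 : LieSubalgebra ℂ (End ℂ R)) :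
    Submodule ℂ (End ℂ R) where
  carrier := {f | f ∈ 𝔞 ∧ Deg δ (-1) f ∧ ∀ x y, I (f x * y) = I (x * f y)}
  add_mem' := by
    rintro f g ⟨h1, h2, h3⟩ ⟨h1', h2', h3'⟩
    refine ⟨𝔞.add_mem h1 h1', h2.add h2', fun x y => ?_⟩
    rw [LinearMap.add_apply, LinearMap.add_apply, add_mul, mul_add, map_add, map_add, h3, h3']
  zero_mem' := ⟨𝔞.zero_mem, by unfold Deg; rw [br_zero_right, smul_zero], fun x y => by simp⟩
  smul_mem' := by
    rintro c f ⟨h1, h2, h3⟩
    refine ⟨𝔞.smul_mem c h1, h2.smul c, fun x y => ?_⟩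
    rw [LinearMap.smul_apply, LinearMap.smul_apply, smul_mul_assoc, mul_smul_comm, map_smul,
      map_smul, h3]

theorem IsDual.low' (h : Setup V n δ I 𝔞) {w : R} (hw : w ∈ V) {f : End ℂ R}
    (hf : IsDual V n δ 𝔞 w f) : f ∈ low' V n δ I 𝔞 :=
  ⟨hf.mem, hf.deg, hf.selfadjoint h hw⟩

/-- the elements of top degree -/
theorem top_eq (h : Setup V n δ I 𝔞) {o : R} (ho : o ∈ V ^ n) (hoI : I o = 1) {z : R}
    (hz : z ∈ V ^ n) : z = I z • o := by
  rw [← sub_eq_zero]
  refine h.eq_zero_of_pair (k := 0) (Nat.zero_le _) ?_ ?_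
  · rw [Nat.sub_zero]
    exact Submodule.sub_mem _ hz (Submodule.smul_mem _ _ ho)
  · intro y hy
    rw [pow_zero] at hy
    obtain ⟨c, rfl⟩ := Submodule.mem_one.1 hy
    rw [Algebra.algebraMap_eq_smul_one, mul_smul_comm, mul_one, map_smul, map_sub, map_smul, hoI,
      smul_eq_mul, smul_eq_mul, mul_one, sub_self, mul_zero]

/-- an operator in `low'` which kills the class of a point is zero -/
theorem low'_eq_zero (h : Setup V n δ I 𝔞) (hn : 1 ≤ n) {w₀ : R} (hw₀ : w₀ ∈ V)
    (hwn : I (w₀ ^ n) ≠ 0) {o : R} (ho : o ∈ V ^ n) (hoI : I o = 1) {X : End ℂ R}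
    (hX : X ∈ low' V n δ I 𝔞) (hXo : X o = 0) : X = 0 := by
  obtain ⟨hXa, hXd, hXs⟩ := hX
  have hXtop : ∀ z ∈ V ^ n, X z = 0 := by
    intro z hz
    rw [top_eq h ho hoI hz, map_smul, hXo, smul_zero]
  -- `X` kills `V ^ (n - 1)`
  have hX1 : ∀ z ∈ V ^ (n - 1), X z = 0 := by
    intro z hz
    have h1 := span_eq h hw₀ hwn (n - 1) hz
    clear hz
    induction h1 using Submodule.span_induction with
    | mem x hx =>
      obtain ⟨w, hw, hwn, rfl⟩ := hx
      obtain ⟨f, hf, hfd, hfw⟩ := h.exists_dual hn hw hwn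
      have hD : IsDual V n δ 𝔞 w f := ⟨hf, hfd, hfw⟩
      obtain ⟨m, rfl⟩ : ∃ m, n = m + 1 := ⟨n - 1, by omega⟩
      rw [Nat.add_sub_cancel]
      have h2 := hD.pow h hw m
      have h3 : br X f = 0 := by
        apply h.neg_two (br_mem hXa hf)
        have := hXd.br hfd
        rwa [show (-1 : ℂ) + -1 = -2 by norm_num] at this
      have h4 : X (f (w ^ (m + 1))) = f (X (w ^ (m + 1))) := by
        have := congrArg (fun Z : End ℂ R => Z (w ^ (m + 1))) h3
        exact sub_eq_zero.1 this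
      rw [h2, hXtop _ (Submodule.pow_mem_pow _ hw _), map_zero, map_smul] at h4
      refine (smul_eq_zero.1 h4).resolve_left ?_
      push_cast
      rw [add_sub_cancel_left, mul_one]
      exact_mod_cast Nat.succ_ne_zero m
    | zero => exact map_zero _
    | add x y _ _ hx hy => rw [map_add, hx, hy, add_zero]
    | smul c x _ hx => rw [map_smul, hx, smul_zero]
  -- `X` kills the classes of degree one and two
  have hV1 : ∀ v ∈ V, X v = 0 := by
    intro v hv
    have hv' : v ∈ V ^ (0 + 1) := by rwa [zero_add, pow_one]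
    have h1 : X v ∈ V ^ (n - n) := by rw [Nat.sub_self]; exact h.low_mem hXd hv'
    refine h.eq_zero_of_pair (k := n) le_rfl h1 fun y hy => ?_
    rw [hXs, hXtop y hy, mul_zero, map_zero]
  have hV2 : ∀ u ∈ V, ∀ v ∈ V, X (u * v) = 0 := by
    intro u hu v hv
    have hv' : u * v ∈ V ^ (1 + 1) := by
      rw [pow_succ, pow_one]; exact Submodule.mul_mem_mul hu hv
    have h1 : X (u * v) ∈ V ^ (n - (n - 1)) := by
      rw [show n - (n - 1) = 1 by omega]; exact h.low_mem hXd hv'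
    refine h.eq_zero_of_pair (k := n - 1) (by omega) h1 fun y hy => ?_
    rw [hXs, hX1 y hy, mul_zero, map_zero]
  have h1 : X 1 = 0 := h.low_zero hXd (by rw [pow_zero]; exact Submodule.one_le.1 le_rfl)
  have hmul1 : ∀ Y : End ℂ R, (∀ u ∈ V, br Y (mu u) = 0) → Y 1 = 0 → Y = 0 := by
    intro Y hY hY1
    ext x
    rw [h.eq_mul (h.comm_of_br hY) x, hY1, mul_zero]
    rfl
  apply hmul1 X _ h1
  intro v hv
  have hZa : br X (mu v) ∈ 𝔞 := br_mem hXa (h.mem_mul v hv)
  have hZd : Deg δ 0 (br X (mu v)) := by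
    have := hXd.br (h.deg_mu hv)
    rwa [show (-1 : ℂ) + 1 = 0 by norm_num] at this
  have hZ1 : br X (mu v) 1 = 0 := by
    rw [br_apply]
    change X (v * 1) - v * X 1 = 0
    rw [mul_one, hV1 v hv, h1, mul_zero, sub_zero]
  have hZu : ∀ u ∈ V, br X (mu v) u = 0 := by
    intro u hu
    rw [br_apply]
    change X (v * u) - v * X u = 0
    rw [hV2 v hv u hu, hV1 u hu, mul_zero, sub_zero]
  apply hmul1 _ _ hZ1
  intro u hu
  have h2 : Deg δ 1 (br (br X (mu v)) (mu u)) := by
    have := hZd.br (h.deg_mu hu)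
    rwa [zero_add] at this
  have h3 := (h.one (br_mem hZa (h.mem_mul u hu)) h2).2
  rw [h3]
  have h4 : br (br X (mu v)) (mu u) 1 = 0 := by
    rw [br_apply]
    change br X (mu v) (u * 1) - u * br X (mu v) 1 = 0
    rw [mul_one, hZu u hu, hZ1, mul_zero, sub_zero]
  rw [h4]
  ext x
  exact zero_mul x

/-- the operator with a given value at the class of a point -/
theorem exists_iota (h : Setup V n δ I 𝔞) (hn : 1 ≤ n) {w₀ : R} (hw₀ : w₀ ∈ V)
    (hwn : I (w₀ ^ n) ≠ 0) {o : R} (ho : o ∈ V ^ n) (hoI : I o = 1) :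
    ∃ ι : ↥(V ^ (n - 1)) →ₗ[ℂ] End ℂ R, (∀ ξ, ι ξ ∈ low' V n δ I 𝔞) ∧ (∀ ξ, ι ξ o = ξ) ∧
      ∀ w ∈ V, I (w ^ n) ≠ 0 → ∀ f, IsDual V n δ 𝔞 w f → ∀ ξ : ↥(V ^ (n - 1)), (ξ : R) = w ^ (n - 1) →
        ι ξ = (I (w ^ n) / n) • f := by
  have hev : ∀ X : ↥(low' V n δ I 𝔞), X.1 o ∈ V ^ (n - 1) := by
    intro X
    apply h.low_mem X.2.2.1
    rwa [show n - 1 + 1 = n by omega]
  let ev : ↥(low' V n δ I 𝔞) →ₗ[ℂ] ↥(V ^ (n - 1)) :=
    { toFun := fun X => ⟨X.1 o, hev X⟩
      map_add' := fun X Y => rfl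
      map_smul' := fun c X => rfl }
  have hinj : Function.Injective ev := by
    rw [injective_iff_map_eq_zero]
    intro X hX
    exact Subtype.ext (low'_eq_zero h hn hw₀ hwn ho hoI X.2 (congrArg Subtype.val hX))
  have hval : ∀ w ∈ V, I (w ^ n) ≠ 0 → ∀ f, IsDual V n δ 𝔞 w f →
      ((I (w ^ n) / n) • f) o = w ^ (n - 1) := by
    intro w hw hwn f hf
    obtain ⟨m, rfl⟩ : ∃ m, n = m + 1 := ⟨n - 1, by omega⟩
    have h1 := hf.pow h hw m
    rw [top_eq h ho hoI (Submodule.pow_mem_pow _ hw (m + 1)), map_smul] at h1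
    rw [LinearMap.smul_apply, Nat.add_sub_cancel, div_eq_inv_mul, mul_smul, h1, smul_smul]
    have hne : ((m + 1 : ℕ) : ℂ) ≠ 0 := by exact_mod_cast Nat.succ_ne_zero m
    have : (((m + 1 : ℕ) : ℂ))⁻¹ * ((m + 1) * (((m + 1 : ℕ) : ℂ) - m)) = 1 := by
      push_cast at hne ⊢
      rw [add_sub_cancel_left, mul_one, inv_mul_cancel₀ hne]
    rw [this, one_smul]
  have hsurj : Function.Surjective ev := by
    intro ξ
    obtain ⟨z, hz⟩ := ξ
    have h1 := span_eq h hw₀ hwn (n - 1) hz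
    have h2 : z ∈ (LinearMap.range ev).map (V ^ (n - 1)).subtype := by
      refine (Submodule.span_le.2 ?_ : _ ≤ (LinearMap.range ev).map (V ^ (n - 1)).subtype) h1
      rintro _ ⟨w, hw, hwn, rfl⟩
      obtain ⟨f, hf, hfd, hfw⟩ := h.exists_dual hn hw hwn
      have hD : IsDual V n δ 𝔞 w f := ⟨hf, hfd, hfw⟩
      refine ⟨ev ⟨(I (w ^ n) / n) • f, Submodule.smul_mem _ _ (hD.low' h hw)⟩, ⟨_, rfl⟩, ?_⟩
      exact hval w hw hwn f hD
    obtain ⟨_, ⟨X, rfl⟩, hX⟩ := h2
    exact ⟨X, Subtype.ext hX⟩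
  let e := LinearEquiv.ofBijective ev ⟨hinj, hsurj⟩
  refine ⟨(low' V n δ I 𝔞).subtype ∘ₗ e.symm.toLinearMap, fun ξ => (e.symm ξ).2, fun ξ => ?_, ?_⟩
  · have := congrArg Subtype.val (e.apply_symm_apply ξ)
    exact this
  · intro w hw hwn f hf ξ hξ
    have hm : (I (w ^ n) / n) • f ∈ low' V n δ I 𝔞 := Submodule.smul_mem _ _ (hf.low' h hw)
    have h1 : e ⟨_, hm⟩ = ξ := by
      apply Subtype.ext
      rw [hξ]
      exact hval w hw hwn f hf
    have h2 : e.symm ξ = ⟨_, hm⟩ := by rw [LinearEquiv.symm_apply_eq, h1]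
    change ((e.symm ξ : ↥(low' V n δ I 𝔞)) : End ℂ R) = _
    rw [h2]

/-- iterating the dual operator -/
theorem IsDual.iter (h : Setup V n δ I 𝔞) {w : R} (hw : w ∈ V) {f : End ℂ R}
    (hf : IsDual V n δ 𝔞 w f) (j : ℕ) (hj : j ≤ n) :
    (f ^ j) (w ^ n) = (∏ i ∈ Finset.range j, ((n - i) * (i + 1) : ℂ)) • w ^ (n - j) := by
  induction j with
  | zero => simp
  | succ j ih =>
    obtain ⟨m, hm⟩ : ∃ m, n - j = m + 1 := ⟨n - (j + 1), by omega⟩
    have hm' : n - (j + 1) = m := by omega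
    have hnm : (n : ℂ) = j + m + 1 := by
      have : n = j + m + 1 := by omega
      exact_mod_cast this
    rw [pow_succ', Module.End.mul_apply, ih (by omega), map_smul, hm, hf.pow h hw m, hm',
      smul_smul, Finset.prod_range_succ]
    congr 2
    rw [hnm]
    ring

theorem selfadjoint_pow {X : End ℂ R} (hX : ∀ x y, I (X x * y) = I (x * X y)) (k : ℕ) (x y : R) :
    I (x * (X ^ k) y) = I ((X ^ k) x * y) := by
  induction k generalizing x y with
  | zero => rfl
  | succ k ih =>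
    rw [pow_succ', Module.End.mul_apply, ← hX, ih, ← Module.End.mul_apply, ← pow_succ, pow_succ']

/-- **The multiplicative Legendre transform.** -/
theorem ekp (h : Setup V n δ I 𝔞) (hn : 2 ≤ n) {w₀ : R} (hw₀ : w₀ ∈ V) (hwn : I (w₀ ^ n) ≠ 0) :
    ∃ M : MultilinearMap ℂ (fun _ : Fin n => ↥(V ^ (n - 1))) ℂ,
      (∀ (σ : Equiv.Perm (Fin n)) (x : Fin n → ↥(V ^ (n - 1))), M (x ∘ σ) = M x) ∧
      ∀ w ∈ V, I (w ^ n) ≠ 0 → ∀ ξ : ↥(V ^ (n - 1)), (ξ : R) = w ^ (n - 1) →
        ∀ (i : Fin n) (η : ↥(V ^ (n - 1))),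
          M (Function.update (fun _ => ξ) i η) = I (w ^ n) ^ (n - 2) * I (w * η) := by
  classical
  obtain ⟨o, hoV, ho⟩ : ∃ o ∈ V ^ n, I o = 1 := by
    refine ⟨(I (w₀ ^ n))⁻¹ • w₀ ^ n, Submodule.smul_mem _ _ (Submodule.pow_mem_pow _ hw₀ n), ?_⟩
    rw [map_smul, smul_eq_mul, inv_mul_cancel₀ hwn]
  obtain ⟨ι, hι, hιo, hιw⟩ := exists_iota h (by omega) hw₀ hwn hoV ho
  have hcomm : ∀ a ∈ Set.range ι, ∀ b ∈ Set.range ι, a * b = b * a := by
    rintro _ ⟨ξ, rfl⟩ _ ⟨η, rfl⟩
    have h1 : br (ι ξ) (ι η) = 0 := by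
      apply h.neg_two (br_mem (hι ξ).1 (hι η).1)
      have := (hι ξ).2.1.br (hι η).2.1
      rwa [show (-1 : ℂ) + -1 = -2 by norm_num] at this
    exact sub_eq_zero.1 h1
  let C := Algebra.adjoin ℂ (Set.range ι)
  letI : CommRing C := Algebra.adjoinCommRingOfComm ℂ hcomm
  let ιC : ↥(V ^ (n - 1)) →ₗ[ℂ] C :=
    { toFun := fun ξ => ⟨ι ξ, Algebra.subset_adjoin ⟨ξ, rfl⟩⟩
      map_add' := fun ξ η => Subtype.ext (map_add ι ξ η)
      map_smul' := fun c ξ => Subtype.ext (map_smul ι c ξ) }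
  let κ : ℂ := (n : ℂ) ^ (n - 1) / ∏ i ∈ Finset.range (n - 1), ((n - i) * (i + 1) : ℂ)
  let φ : C →ₗ[ℂ] ℂ :=
    { toFun := fun c => κ * I (o * (c : End ℂ R) o)
      map_add' := fun c d => by
        change κ * I (o * ((c : End ℂ R) o + (d : End ℂ R) o)) = _
        rw [mul_add, map_add, mul_add]
      map_smul' := fun a c => by
        change κ * I (o * (a • (c : End ℂ R) o)) = a * _
        rw [mul_smul_comm, map_smul, smul_eq_mul]
        ring }
  refine ⟨φ.compMultilinearMap ((MultilinearMap.mkPiAlgebra ℂ (Fin n) C).compLinearMap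
    fun _ => ιC), ?_, ?_⟩
  · intro σ x
    simp only [LinearMap.compMultilinearMap_apply, MultilinearMap.compLinearMap_apply,
      MultilinearMap.mkPiAlgebra_apply, Function.comp_apply]
    rw [Equiv.prod_comp σ (fun i => ιC (x i))]
  · intro w hw hwn ξ hξ i η
    simp only [LinearMap.compMultilinearMap_apply, MultilinearMap.compLinearMap_apply,
      MultilinearMap.mkPiAlgebra_apply]
    have h1 : ∀ j, ιC (Function.update (fun _ => ξ) i η j) =
        Function.update (fun _ => ιC ξ) i (ιC η) j := by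
      intro j
      by_cases hj : j = i
      · subst hj; rw [Function.update_self, Function.update_self]
      · rw [Function.update_of_ne hj, Function.update_of_ne hj]
    rw [Finset.prod_congr rfl fun j _ => h1 j, Finset.prod_update_of_mem (Finset.mem_univ i),
      Finset.prod_const]
    obtain ⟨f, hf, hfd, hfw⟩ := h.exists_dual (by omega) hw hwn
    have hD : IsDual V n δ 𝔞 w f := ⟨hf, hfd, hfw⟩
    have h2 := hιw w hw hwn f hD ξ hξ
    have hP : ∏ i ∈ Finset.range (n - 1), ((n - i) * (i + 1) : ℂ) ≠ 0 := by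
      refine Finset.prod_ne_zero_iff.2 fun i hi => mul_ne_zero ?_ ?_
      · have h4 := Finset.mem_range.1 hi
        rw [sub_ne_zero]
        exact_mod_cast (by omega : n ≠ i)
      · exact_mod_cast Nat.succ_ne_zero i
    have hn0 : (n : ℂ) ^ (n - 1) ≠ 0 := pow_ne_zero _ (by exact_mod_cast (by omega : n ≠ 0))
    have h3 : φ (ιC η * ιC ξ ^ (n - 1)) = I (w ^ n) ^ (n - 2) * I (w * η) := by
      have e1 : ((ιC η * ιC ξ ^ (n - 1) : C) : End ℂ R) o = (ι ξ ^ (n - 1)) η := by
        rw [mul_comm]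
        change (ι ξ ^ (n - 1)) ((ι η) o) = _
        rw [hιo]
      have e2 : (ι ξ ^ (n - 1)) o = ((I (w ^ n))⁻¹ * (I (w ^ n) / n) ^ (n - 1) *
          ∏ i ∈ Finset.range (n - 1), ((n - i) * (i + 1) : ℂ)) • w := by
        have ho' : o = (I (w ^ n))⁻¹ • w ^ n := by
          conv_rhs => rw [top_eq h hoV ho (Submodule.pow_mem_pow _ hw n)]
          rw [smul_smul, map_smul, ho, smul_eq_mul, mul_one, inv_mul_cancel₀ hwn, one_smul]
        have e3 := hD.iter h hw (n - 1) (by omega)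
        rw [show n - (n - 1) = 1 by omega, pow_one] at e3
        rw [h2, _root_.smul_pow, LinearMap.smul_apply, ho', map_smul, e3, smul_smul, smul_smul]
        congr 1
        ring
      change κ * I (o * ((ιC η * ιC ξ ^ (n - 1) : C) : End ℂ R) o) = _
      rw [e1, selfadjoint_pow (hι ξ).2.2, e2, smul_mul_assoc, map_smul, smul_eq_mul]
      have e4 : I (w ^ n) ^ (n - 1) = I (w ^ n) ^ (n - 2) * I (w ^ n) := by
        rw [← pow_succ, show n - 2 + 1 = n - 1 by omega]
      simp only [κ]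
      rw [div_pow, e4]
      field_simp
    have h5 : (Finset.univ \ {i} : Finset (Fin n)).card = n - 1 := by
      rw [Finset.card_sdiff, Finset.inter_univ, Finset.card_singleton, Finset.card_univ,
        Fintype.card_fin]
    rw [h5]
    exact h3

end Pool.Agent.K6.H85.JL
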