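import Pool.Agent.K6.H85.JL.Bin

/-!
# Forms whose Hessian has no zeros outside the zeros of the form
-/

set_option autoImplicit false

namespace Pool.Agent.K6.H85.JL

section uni

open Polynomial

variable {H : Type*} [CommRing H] [Algebra ℂ H] (I : H →ₗ[ℂ] ℂ) (a b : H)

/-- the polynomial `I ((a + X b) ^ m z)` -/
noncomputable def G (m : ℕ) (z : H) : ℂ[X] :=
  ∑ k ∈ Finset.range (m + 1), C (I (b ^ k * a ^ (m - k) * (m.choose k : H) * z)) * X ^ k

theorem eval_G (m : ℕ) (z : H) (x : ℂ) : (G I a b m z).eval x = I ((a + x • b) ^ m * z) := by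
  unfold G
  rw [eval_finsetSum, add_comm a, add_pow, Finset.sum_mul, map_sum]
  refine Finset.sum_congr rfl fun k _ => ?_
  rw [eval_mul, eval_C, eval_pow, eval_X, _root_.smul_pow, smul_mul_assoc, smul_mul_assoc,
    smul_mul_assoc, map_smul, smul_eq_mul, mul_comm]

theorem coeff_G (m : ℕ) (z : H) (k : ℕ) : (G I a b m z).coeff k =
    if k < m + 1 then I (b ^ k * a ^ (m - k) * (m.choose k : H) * z) else 0 := by
  unfold G
  simp only [finsetSum_coeff, coeff_C_mul, coeff_X_pow]
  by_cases hk : k < m + 1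
  · rw [if_pos hk, Finset.sum_eq_single k]
    · rw [if_pos rfl, mul_one]
    · intro j _ hj
      rw [if_neg (Ne.symm hj), mul_zero]
    · intro h
      exact absurd (Finset.mem_range.2 hk) h
  · rw [if_neg hk]
    refine Finset.sum_eq_zero fun j hj => ?_
    have := Finset.mem_range.1 hj
    rw [if_neg (by omega), mul_zero]

theorem natDegree_G (m : ℕ) (z : H) : (G I a b m z).natDegree ≤ m := by
  rw [natDegree_le_iff_coeff_eq_zero]
  intro k hk
  rw [coeff_G, if_neg (by omega)]

theorem coeff_G_top (m : ℕ) (z : H) : (G I a b m z).coeff m = I (b ^ m * z) := by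
  rw [coeff_G, if_pos (Nat.lt_succ_self m), Nat.sub_self, pow_zero, Nat.choose_self, Nat.cast_one,
    mul_one, mul_one]

theorem derivative_G (m : ℕ) (z : H) :
    derivative (G I a b (m + 1) z) = C ((m : ℂ) + 1) * G I a b m (b * z) := by
  ext k
  rw [coeff_derivative, coeff_C_mul, coeff_G, coeff_G]
  by_cases hk : k < m + 1
  · rw [if_pos (by omega), if_pos hk]
    have h1 : (k + 1 : ℂ) * ((m + 1).choose (k + 1) : ℂ) = (m + 1) * (m.choose k : ℂ) := by
      have := Nat.add_one_mul_choose_eq m k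
      have h2 : ((m + 1 : ℕ) * m.choose k : ℂ) = ((m + 1).choose (k + 1) : ℂ) * (k + 1 : ℕ) := by
        exact_mod_cast this
      push_cast at h2
      rw [h2]; ring
    have h3 : ∀ (q : ℕ) (y : H), I (y * (q : H) * z) = (q : ℂ) * I (y * z) := by
      intro q y
      have : y * (q : H) * z = (q : ℂ) • (y * z) := by
        rw [Nat.cast_smul_eq_nsmul, nsmul_eq_mul]; ring
      rw [this, map_smul, smul_eq_mul]
    have h4 : I (b ^ k * a ^ (m - k) * (m.choose k : H) * (b * z)) =
        (m.choose k : ℂ) * I (b ^ (k + 1) * a ^ (m - k) * z) := by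
      rw [← h3]
      congr 1
      ring
    rw [h3, h4, show m + 1 - (k + 1) = m - k by omega]
    linear_combination I (b ^ (k + 1) * a ^ (m - k) * z) * h1
  · rw [if_neg (by omega), if_neg hk, zero_mul, mul_zero]

theorem hes_G {n : ℕ} (hn : 2 ≤ n) : hes n (G I a b n 1) = C ((n : ℂ) ^ 2 * (n - 1)) *
    (G I a b (n - 2) (a * a) * G I a b (n - 2) (b * b) - G I a b (n - 2) (a * b) ^ 2) := by
  obtain ⟨m, rfl⟩ : ∃ m, n = m + 2 := ⟨n - 2, by omega⟩
  rw [Nat.add_sub_cancel]
  apply Polynomial.funext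
  intro x
  unfold hes
  rw [derivative_G I a b (m + 1), mul_one, derivative_C_mul, derivative_G I a b m]
  simp only [eval_sub, eval_mul, eval_pow, eval_C, eval_G]
  have e1 : I ((a + x • b) ^ (m + 2) * 1) = I ((a + x • b) ^ m * (a * a)) +
      2 * x * I ((a + x • b) ^ m * (a * b)) + x ^ 2 * I ((a + x • b) ^ m * (b * b)) := by
    have : (a + x • b) ^ (m + 2) * 1 = (a + x • b) ^ m * (a * a) +
        (2 * x) • ((a + x • b) ^ m * (a * b)) + x ^ 2 • ((a + x • b) ^ m * (b * b)) := by
      rw [mul_one, pow_add]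
      simp only [Algebra.smul_def, map_mul, map_pow, map_ofNat]
      ring
    rw [this, map_add, map_add, map_smul, map_smul, smul_eq_mul, smul_eq_mul]
  have e2 : I ((a + x • b) ^ (m + 1) * b) = I ((a + x • b) ^ m * (a * b)) +
      x * I ((a + x • b) ^ m * (b * b)) := by
    have : (a + x • b) ^ (m + 1) * b = (a + x • b) ^ m * (a * b) +
        x • ((a + x • b) ^ m * (b * b)) := by
      rw [pow_succ]
      simp only [Algebra.smul_def]
      ring
    rw [this, map_add, map_smul, smul_eq_mul]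
  rw [e1, e2]
  push_cast
  ring

/-- **Two-dimensional spaces of classes.** -/
theorem two_dim {V : Submodule ℂ H} (h2 : Module.finrank ℂ V = 2) {n : ℕ} (hn : 2 ≤ n)
    {b : H} (hb : b ∈ V) (hbn : I (b ^ n) ≠ 0)
    (hes : ∀ w ∈ V, I (w ^ n) ≠ 0 → ∀ u ∈ V, (∀ v ∈ V, I (w ^ (n - 2) * (u * v)) = 0) → u = 0) :
    ∃ u ∈ V, ∃ v ∈ V, ∃ (c : ℂ) (p q : ℕ), c ≠ 0 ∧ 1 ≤ p ∧ 1 ≤ q ∧ p + q = n ∧
      V = Submodule.span ℂ {u, v} ∧ LinearIndependent ℂ ![u, v] ∧
      ∀ x y : ℂ, I ((x • u + y • v) ^ n) = c * x ^ p * y ^ q := by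
  have hfin : FiniteDimensional ℂ V := Module.finite_of_finrank_eq_succ h2
  have hb0 : b ≠ 0 := by
    rintro rfl
    apply hbn
    rw [zero_pow (by omega), map_zero]
  -- a second class
  obtain ⟨a, ha, hab⟩ : ∃ a ∈ V, a ∉ Submodule.span ℂ {b} := by
    by_contra hcon
    push Not at hcon
    have h1 := Submodule.finrank_mono (show V ≤ Submodule.span ℂ {b} from hcon)
    rw [h2, finrank_span_singleton hb0] at h1
    omega
  have hli : LinearIndependent ℂ ![a, b] := by
    rw [LinearIndependent.pair_iff]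
    intro s t hst
    have hs : s = 0 := by
      by_contra hs
      apply hab
      rw [Submodule.mem_span_singleton]
      refine ⟨-(s⁻¹ * t), ?_⟩
      have h1 : s⁻¹ • (s • a + t • b) = 0 := by rw [hst, smul_zero]
      rw [smul_add, smul_smul, inv_mul_cancel₀ hs, one_smul, smul_smul] at h1
      rw [neg_smul]
      exact (eq_neg_of_add_eq_zero_left h1).symm
    rw [hs, zero_smul, zero_add] at hst
    exact ⟨hs, (smul_eq_zero.1 hst).resolve_right hb0⟩
  have hspan : ∀ {u v : H}, u ∈ V → v ∈ V → LinearIndependent ℂ ![u, v] →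
      V = Submodule.span ℂ {u, v} := by
    intro u v hu hv huv
    symm
    apply Submodule.eq_of_le_of_finrank_le
    · rw [Submodule.span_le]
      rintro x (rfl | rfl)
      · exact hu
      · exact hv
    · rw [h2]
      have := finrank_span_eq_card huv
      rw [Fintype.card_fin, Matrix.range_cons, Matrix.range_cons, Matrix.range_empty,
        Set.union_empty, Set.singleton_union] at this
      rw [this]
  have hVab := hspan ha hb hli
  -- the form does not degenerate
  have key : ∀ x : ℂ, I ((a + x • b) ^ n) ≠ 0 →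
      (Pool.Agent.K6.H85.JL.hes n (G I a b n 1)).eval x ≠ 0 := by
    intro x hx h0
    rw [hes_G I a b hn] at h0
    simp only [eval_mul, eval_sub, eval_pow, eval_C, eval_G] at h0
    have hn0 : (n : ℂ) ^ 2 * (n - 1) ≠ 0 := by
      refine mul_ne_zero (pow_ne_zero _ (by exact_mod_cast (by omega : n ≠ 0))) ?_
      rw [sub_ne_zero]
      exact_mod_cast (by omega : n ≠ 1)
    have h1 := (mul_eq_zero.1 h0).resolve_left hn0
    have hw : a + x • b ∈ V := V.add_mem ha (V.smul_mem x hb)
    obtain ⟨A, hA⟩ : ∃ A, A = I ((a + x • b) ^ (n - 2) * (a * a)) := ⟨_, rfl⟩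
    obtain ⟨B, hB⟩ : ∃ B, B = I ((a + x • b) ^ (n - 2) * (a * b)) := ⟨_, rfl⟩
    obtain ⟨D, hD⟩ : ∃ D, D = I ((a + x • b) ^ (n - 2) * (b * b)) := ⟨_, rfl⟩
    rw [← hA, ← hB, ← hD] at h1
    -- a vector in the kernel
    have hker : ∀ s t : ℂ, s * A + t * B = 0 → s * B + t * D = 0 → s = 0 ∧ t = 0 := by
      intro s t hs ht
      have h2 : s • a + t • b = 0 := by
        refine hes _ hw hx _ (V.add_mem (V.smul_mem s ha) (V.smul_mem t hb)) ?_
        intro v hv
        rw [hVab] at hv
        obtain ⟨s', t', rfl⟩ := Submodule.mem_span_pair.1 hv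
        have e1 : (a + x • b) ^ (n - 2) * ((s • a + t • b) * (s' • a + t' • b)) =
            (s * s') • ((a + x • b) ^ (n - 2) * (a * a)) +
            (s * t' + t * s') • ((a + x • b) ^ (n - 2) * (a * b)) +
            (t * t') • ((a + x • b) ^ (n - 2) * (b * b)) := by
          simp only [Algebra.smul_def, map_mul, map_add]
          ring
        rw [e1, map_add, map_add, map_smul, map_smul, map_smul, ← hA, ← hB, ← hD, smul_eq_mul,
          smul_eq_mul, smul_eq_mul]
        linear_combination s' * hs + t' * ht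
      exact LinearIndependent.pair_iff.1 hli s t h2
    by_cases hD0 : B = 0 ∧ D = 0
    · have := hker 0 1 (by rw [hD0.1]; ring) (by rw [hD0.2]; ring)
      exact one_ne_zero this.2
    · have := hker (-D) B (by linear_combination -h1) (by ring)
      exact hD0 ⟨this.2, neg_eq_zero.1 this.1⟩
  -- the top coefficient of the Hessian
  have htop : I (b ^ (n - 2) * (a * a)) * I (b ^ (n - 2) * (b * b)) -
      I (b ^ (n - 2) * (a * b)) ^ 2 ≠ 0 := by
    intro h1
    obtain ⟨A, hA⟩ : ∃ A, A = I (b ^ (n - 2) * (a * a)) := ⟨_, rfl⟩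
    obtain ⟨B, hB⟩ : ∃ B, B = I (b ^ (n - 2) * (a * b)) := ⟨_, rfl⟩
    obtain ⟨D, hD⟩ : ∃ D, D = I (b ^ (n - 2) * (b * b)) := ⟨_, rfl⟩
    rw [← hA, ← hB, ← hD] at h1
    have hker : ∀ s t : ℂ, s * A + t * B = 0 → s * B + t * D = 0 → s = 0 ∧ t = 0 := by
      intro s t hs ht
      have h2 : s • a + t • b = 0 := by
        refine hes _ hb hbn _ (V.add_mem (V.smul_mem s ha) (V.smul_mem t hb)) ?_
        intro v hv
        rw [hVab] at hv
        obtain ⟨s', t', rfl⟩ := Submodule.mem_span_pair.1 hv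
        have e1 : b ^ (n - 2) * ((s • a + t • b) * (s' • a + t' • b)) =
            (s * s') • (b ^ (n - 2) * (a * a)) +
            (s * t' + t * s') • (b ^ (n - 2) * (a * b)) +
            (t * t') • (b ^ (n - 2) * (b * b)) := by
          simp only [Algebra.smul_def, map_mul, map_add]
          ring
        rw [e1, map_add, map_add, map_smul, map_smul, map_smul, ← hA, ← hB, ← hD, smul_eq_mul,
          smul_eq_mul, smul_eq_mul]
        linear_combination s' * hs + t' * ht
      exact LinearIndependent.pair_iff.1 hli s t h2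
    by_cases hD0 : B = 0 ∧ D = 0
    · have := hker 0 1 (by rw [hD0.1]; ring) (by rw [hD0.2]; ring)
      exact one_ne_zero this.2
    · have := hker (-D) B (by linear_combination -h1) (by ring)
      exact hD0 ⟨this.2, neg_eq_zero.1 this.1⟩
  have hF : (G I a b n 1).natDegree = n := by
    refine le_antisymm (natDegree_G I a b n 1) (le_natDegree_of_ne_zero ?_)
    rw [coeff_G_top, mul_one]
    exact hbn
  have hn0 : (n : ℂ) ^ 2 * (n - 1) ≠ 0 := by
    refine mul_ne_zero (pow_ne_zero _ (by exact_mod_cast (by omega : n ≠ 0))) ?_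
    rw [sub_ne_zero]
    exact_mod_cast (by omega : n ≠ 1)
  have hcoeff : (Pool.Agent.K6.H85.JL.hes n (G I a b n 1)).coeff (2 * n - 4) ≠ 0 := by
    rw [hes_G I a b hn, coeff_C_mul, show 2 * n - 4 = (n - 2) + (n - 2) by omega, coeff_sub,
      pow_two (G I a b (n - 2) (a * b)), coeff_mul_add_eq_of_natDegree_le (natDegree_G I a b _ _) (natDegree_G I a b _ _),
      coeff_mul_add_eq_of_natDegree_le (natDegree_G I a b _ _) (natDegree_G I a b _ _),
      coeff_G_top, coeff_G_top, coeff_G_top]
    have h5 := mul_ne_zero hn0 htop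
    rwa [pow_two (I (b ^ (n - 2) * (a * b)))] at h5
  have hdeg : (Pool.Agent.K6.H85.JL.hes n (G I a b n 1)).natDegree = 2 * n - 4 := by
    refine le_antisymm ?_ (le_natDegree_of_ne_zero hcoeff)
    rw [hes_G I a b hn]
    refine (natDegree_C_mul_le _ _).trans ((natDegree_sub_le _ _).trans (max_le ?_ ?_))
    · refine natDegree_mul_le.trans ?_
      have h1 := natDegree_G I a b (n - 2) (a * a)
      have h3 := natDegree_G I a b (n - 2) (b * b)
      omega
    · refine natDegree_pow_le.trans ?_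
      have h1 := natDegree_G I a b (n - 2) (a * b)
      omega
  obtain ⟨c, α, β, p, q, hc, hαβ, hp, hq, hpq, hfac⟩ := binary hn hF
    (fun h0 => hcoeff (by rw [h0, coeff_zero])) hdeg (fun x hx => key x (by
      rwa [eval_G, mul_one] at hx))
  -- the form on all classes
  have hform : ∀ s t : ℂ, I ((s • a + t • b) ^ n) = c * (t - α * s) ^ p * (t - β * s) ^ q := by
    intro s t
    by_cases hs : s = 0
    · subst hs
      have h1 : (G I a b n 1).coeff n = c := by
        rw [hfac]
        have hm : (C c * (X - C α) ^ p * (X - C β) ^ q).leadingCoeff = c := by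
          rw [leadingCoeff_mul, leadingCoeff_mul, leadingCoeff_C, leadingCoeff_pow,
            leadingCoeff_pow, leadingCoeff_X_sub_C, leadingCoeff_X_sub_C, one_pow, one_pow,
            mul_one, mul_one]
        rw [leadingCoeff, ← hfac, hF, hfac] at hm
        exact hm
      rw [coeff_G_top, mul_one] at h1
      rw [zero_smul, zero_add, _root_.smul_pow, map_smul, h1, mul_zero, mul_zero, sub_zero,
        smul_eq_mul, mul_assoc, ← pow_add, hpq, mul_comm]
    · have h1 := eval_G I a b n 1 (t / s)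
      rw [hfac, mul_one] at h1
      simp only [eval_mul, eval_pow, eval_sub, eval_X, eval_C] at h1
      have h3 : s • a + t • b = s • (a + (t / s) • b) := by
        rw [smul_add, smul_smul, mul_div_cancel₀ _ hs]
      rw [h3, _root_.smul_pow, map_smul, ← h1, smul_eq_mul, ← hpq, pow_add]
      have h4 : ∀ γ : ℂ, t - γ * s = s * (t / s - γ) := by
        intro γ
        field_simp
      rw [h4, h4, mul_pow, mul_pow]
      ring
  have hd : β - α ≠ 0 := sub_ne_zero.2 hαβ.symm
  refine ⟨(β - α)⁻¹ • (a + β • b), V.smul_mem _ (V.add_mem ha (V.smul_mem _ hb)),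
    (β - α)⁻¹ • (-(a + α • b)), V.smul_mem _ (V.neg_mem (V.add_mem ha (V.smul_mem _ hb))), c, p, q,
    hc, hp, hq, hpq, ?_⟩
  have hxy : ∀ x y : ℂ, x • ((β - α)⁻¹ • (a + β • b)) + y • ((β - α)⁻¹ • (-(a + α • b))) =
      ((x - y) / (β - α)) • a + ((β * x - α * y) / (β - α)) • b := by
    intro x y
    module
  have hli' : LinearIndependent ℂ ![(β - α)⁻¹ • (a + β • b), (β - α)⁻¹ • (-(a + α • b))] := by
    rw [LinearIndependent.pair_iff]
    intro x y h0
    rw [hxy] at h0
    obtain ⟨h1, h3⟩ := LinearIndependent.pair_iff.1 hli _ _ h0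
    rw [div_eq_zero_iff] at h1 h3
    have h4 := h1.resolve_right hd
    have h5 := h3.resolve_right hd
    have h6 : (β - α) * x = 0 := by linear_combination h5 - α * h4
    have h7 := (mul_eq_zero.1 h6).resolve_left hd
    rw [h7, zero_sub, neg_eq_zero] at h4
    exact ⟨h7, h4⟩
  refine ⟨hspan (V.smul_mem _ (V.add_mem ha (V.smul_mem _ hb)))
    (V.smul_mem _ (V.neg_mem (V.add_mem ha (V.smul_mem _ hb)))) hli', hli', fun x y => ?_⟩
  rw [hxy, hform]
  have e1 : (β * x - α * y) / (β - α) - α * ((x - y) / (β - α)) = x := by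
    field_simp
    ring
  have e2 : (β * x - α * y) / (β - α) - β * ((x - y) / (β - α)) = y := by
    field_simp
    ring
  rw [e1, e2]

end uni

end Pool.Agent.K6.H85.JL
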