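import Mathlib

/-!
# Irreducible forms whose Hessian has no zeros outside the zeros of the form
-/

set_option autoImplicit false

namespace Pool.Agent.K6.H85.JL

open MvPolynomial

section

variable {H : Type*} [CommRing H] [Algebra ℂ H] (I : H →ₗ[ℂ] ℂ) {σ : Type*} [Fintype σ]
  (e : σ → H)

/-- the form `I ((∑ x i • e i) ^ m z)` -/
theorem exists_form (m : ℕ) (z : H) : ∃ G : MvPolynomial σ ℂ, G.IsHomogeneous m ∧
    ∀ x, eval x G = I ((∑ i, x i • e i) ^ m * z) := by
  induction m generalizing z with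
  | zero =>
    refine ⟨C (I z), isHomogeneous_C _ _, fun x => ?_⟩
    rw [eval_C, pow_zero, one_mul]
  | succ m ih =>
    choose G hG hGx using ih
    refine ⟨∑ i, X i * G (e i * z), ?_, fun x => ?_⟩
    · refine IsHomogeneous.sum _ _ _ fun i _ => ?_
      rw [add_comm]
      exact (isHomogeneous_X ℂ i).mul (hG _)
    · rw [map_sum]
      have h1 : (∑ i, x i • e i) ^ (m + 1) * z =
          ∑ i, x i • ((∑ i, x i • e i) ^ m * (e i * z)) := by
        rw [pow_succ, mul_assoc, Finset.sum_mul, Finset.mul_sum]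
        refine Finset.sum_congr rfl fun i _ => ?_
        rw [smul_mul_assoc, mul_smul_comm]
      rw [h1, map_sum]
      refine Finset.sum_congr rfl fun i _ => ?_
      rw [map_mul, eval_X, hGx, map_smul, smul_eq_mul]

end

/-- all prime factors of `D` are `F` -/
theorem exists_pow {R : Type*} [CommRing R] [IsDomain R] [UniqueFactorizationMonoid R] {F D : R}
    (hD : D ≠ 0) (h : ∀ g, Prime g → g ∣ D → Associated g F) : ∃ e : ℕ, Associated D (F ^ e) := by
  induction D using UniqueFactorizationMonoid.induction_on_prime with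
  | h₁ => exact absurd rfl hD
  | h₂ x hx => exact ⟨0, by rw [pow_zero]; exact associated_one_iff_isUnit.2 hx⟩
  | h₃ a p ha hp ih =>
    obtain ⟨e, he⟩ := ih ha fun g hg hga => h g hg (hga.mul_left p)
    refine ⟨e + 1, ?_⟩
    rw [pow_succ']
    exact (h p hp (dvd_mul_right p a)).mul_mul he

variable {H : Type*} [CommRing H] [Algebra ℂ H] (I : H →ₗ[ℂ] ℂ)

/-- **Irreducible forms.** -/
theorem irreducible_form {V : Submodule ℂ H} {n d : ℕ} (hn : 2 ≤ n) {w₀ : H} (hw₀ : w₀ ∈ V)
    (hw₀n : I (w₀ ^ n) ≠ 0)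
    (hes : ∀ w ∈ V, I (w ^ n) ≠ 0 → ∀ u ∈ V, (∀ v ∈ V, I (w ^ (n - 2) * (u * v)) = 0) → u = 0)
    (e : Module.Basis (Fin d) ℂ V) (F : MvPolynomial (Fin d) ℂ)
    (hF : ∀ x, eval x F = I ((∑ i, x i • (e i : H)) ^ n)) (hirr : Irreducible F) :
    n ∣ 2 * d := by
  classical
  -- `F` is homogeneous
  obtain ⟨F', hF'h, hF'⟩ := exists_form I (fun i => (e i : H)) n 1
  have hFF : F = F' := MvPolynomial.funext fun x => by rw [hF, hF', mul_one]
  have hFh : F.IsHomogeneous n := hFF ▸ hF'h
  -- the Hessian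
  choose G hGh hG using fun z => exists_form I (fun i => (e i : H)) (n - 2) z
  let M : Matrix (Fin d) (Fin d) (MvPolynomial (Fin d) ℂ) :=
    Matrix.of fun i j => G ((e i : H) * e j)
  have hDh : M.det.IsHomogeneous (d * (n - 2)) := by
    rw [Matrix.det_apply]
    refine IsHomogeneous.sum _ _ _ fun τ _ => ?_
    have h1 : (∏ i, M (τ i) i).IsHomogeneous (∑ _i : Fin d, (n - 2)) :=
      IsHomogeneous.prod _ _ _ fun i _ => hGh _
    rw [Finset.sum_const, Finset.card_univ, Fintype.card_fin, smul_eq_mul] at h1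
    rcases Int.units_eq_one_or (Equiv.Perm.sign τ) with h2 | h2
    · rw [h2, one_smul]; exact h1
    · rw [h2, Units.neg_smul, one_smul]; exact h1.neg
  have hcoe : ∀ x : Fin d → ℂ, ((∑ i, x i • e i : V) : H) = ∑ i, x i • (e i : H) := by
    intro x
    rw [Submodule.coe_sum]
    exact Finset.sum_congr rfl fun i _ => by rw [Submodule.coe_smul]
  have hDne : ∀ x, eval x F ≠ 0 → eval x M.det ≠ 0 := by
    intro x hx h0
    rw [RingHom.map_det] at h0
    obtain ⟨v, hv0, hv⟩ := Matrix.exists_mulVec_eq_zero_iff.2 h0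
    rw [hF] at hx
    have hw : ∑ i, x i • (e i : H) ∈ V := by rw [← hcoe]; exact Submodule.coe_mem _
    have hu : ∑ i, v i • (e i : H) ∈ V := by rw [← hcoe]; exact Submodule.coe_mem _
    have h1 : ∑ i, v i • (e i : H) = 0 := by
      refine hes _ hw hx _ hu fun z hz => ?_
      have hz' : z = ∑ i, e.repr ⟨z, hz⟩ i • (e i : H) := by
        rw [← hcoe]
        exact (congrArg Subtype.val (e.sum_repr ⟨z, hz⟩)).symm
      rw [hz', Finset.mul_sum, Finset.mul_sum, map_sum]
      refine Finset.sum_eq_zero fun i _ => ?_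
      have h2 := congrFun hv i
      simp only [Matrix.mulVec, dotProduct, RingHom.mapMatrix_apply, Matrix.map_apply,
        Pi.zero_apply, M, Matrix.of_apply, hG] at h2
      have h3 : (∑ i, x i • (e i : H)) ^ (n - 2) * ((∑ j, v j • (e j : H)) *
          (e.repr ⟨z, hz⟩ i • (e i : H))) = e.repr ⟨z, hz⟩ i •
          ∑ j, v j • ((∑ i, x i • (e i : H)) ^ (n - 2) * ((e i : H) * e j)) := by
        rw [mul_smul_comm, mul_smul_comm, Finset.sum_mul, Finset.mul_sum]
        congr 1
        refine Finset.sum_congr rfl fun j _ => ?_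
        rw [smul_mul_assoc, mul_smul_comm, mul_comm (e j : H)]
      rw [h3, map_smul, map_sum]
      have h4 : ∑ j, I (v j • ((∑ i, x i • (e i : H)) ^ (n - 2) * ((e i : H) * e j))) = 0 := by
        rw [← h2]
        refine Finset.sum_congr rfl fun j _ => ?_
        rw [map_smul, smul_eq_mul, mul_comm]
      rw [h4, smul_zero]
    apply hv0
    funext i
    have h2 : (∑ i, v i • e i : V) = 0 := Subtype.ext (by rw [hcoe, h1]; rfl)
    exact Fintype.linearIndependent_iff.1 e.linearIndependent v h2 i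
  -- it is not zero
  have hx₀ : eval (fun i => e.repr ⟨w₀, hw₀⟩ i) F ≠ 0 := by
    rw [hF, ← hcoe, e.sum_repr]
    exact hw₀n
  have hD0 : M.det ≠ 0 := by
    intro h0
    apply hDne _ hx₀
    rw [h0, map_zero]
  have hF0 : F ≠ 0 := hirr.ne_zero
  -- the prime factors
  obtain ⟨k, hk⟩ : ∃ k : ℕ, Associated M.det (F ^ k) := by
    refine exists_pow hD0 fun g hg hgD => ?_
    have h1 : F ∈ (Ideal.span {g}).radical := by
      rw [← MvPolynomial.vanishingIdeal_zeroLocus_eq_radical (K := ℂ)]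
      rw [MvPolynomial.mem_vanishingIdeal_iff]
      intro x hx
      by_contra hne
      have h2 : aeval x g = 0 := hx g (Ideal.subset_span rfl)
      obtain ⟨q, hq⟩ := hgD
      apply hDne x (by rwa [← MvPolynomial.coe_aeval_eq_eval])
      rw [hq, map_mul]
      have h3 : eval x g = 0 := by rwa [← MvPolynomial.coe_aeval_eq_eval]
      rw [h3, zero_mul]
    obtain ⟨k, hk⟩ := h1
    rw [Ideal.mem_span_singleton] at hk
    have h2 : g ∣ F := hg.dvd_of_dvd_pow hk
    exact (hg.irreducible.associated_of_dvd hirr h2)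
  obtain ⟨u, hu⟩ := hk
  have h1 : (F ^ k).IsHomogeneous (n * k) := hFh.pow k
  have h2 : (M.det * u).IsHomogeneous (d * (n - 2)) := by
    obtain ⟨c, hc, hcu⟩ := MvPolynomial.isUnit_iff_eq_C_of_isReduced.1 u.isUnit
    rw [hcu]
    have := hDh.mul (isHomogeneous_C (Fin d) c)
    rwa [add_zero] at this
  rw [hu] at h2
  have h3 := h1.inj_right h2 (pow_ne_zero k hF0)
  have h4 : d * n = d * (n - 2) + 2 * d := by
    obtain ⟨m, rfl⟩ : ∃ m, n = m + 2 := ⟨n - 2, by omega⟩
    rw [Nat.add_sub_cancel]; ring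
  have h5 : n ∣ d * (n - 2) := ⟨k, h3.symm⟩
  exact (Nat.dvd_add_right h5).1 (h4 ▸ Dvd.intro_left d rfl)

end Pool.Agent.K6.H85.JL
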