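import Pool.Agent.K6.H85.JL.Asm2
import Pool.Agent.K6.H85.JL.Frm
import Pool.Agent.K6.H85.JL.Irr

/-!
# Hard Lefschetz and the Hessian
-/

set_option autoImplicit false
set_option linter.unusedSectionVars false

namespace Pool.Agent.K6.H85.JL

open H956GW Module Pool.Agent.Y348.GW Pool.Agent.K6.H85.GW

section main

variable {H : Type} [CommRing H] [Algebra ℂ H] {n : ℕ} {dg : ℕ → Submodule ℂ H}

theorem adjoin_le_iSup (V : Submodule ℂ H) {x : H} (hx : x ∈ Algebra.adjoin ℂ (V : Set H)) :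
    x ∈ ⨆ k : ℕ, V ^ k := by
  have hmul : ∀ x ∈ ⨆ k : ℕ, V ^ k, ∀ y ∈ ⨆ k : ℕ, V ^ k, x * y ∈ ⨆ k : ℕ, V ^ k := by
    intro x hx y hy
    have h1 := Submodule.mul_mem_mul hx hy
    rw [Submodule.iSup_mul] at h1
    refine (iSup_le fun i => ?_ : _ ≤ ⨆ k : ℕ, V ^ k) h1
    rw [Submodule.mul_iSup]
    refine iSup_le fun j => ?_
    rw [← pow_add]
    exact le_iSup (fun k : ℕ => V ^ k) (i + j)
  induction hx using Algebra.adjoin_induction with
  | mem x hx =>
    refine Submodule.mem_iSup_of_mem 1 ?_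
    rwa [pow_one]
  | algebraMap z =>
    refine Submodule.mem_iSup_of_mem 0 ?_
    rw [pow_zero, Submodule.mem_one]
    exact ⟨z, rfl⟩
  | add a b ha hb iha ihb => exact Submodule.add_mem _ iha ihb
  | mul a b ha hb iha ihb => exact hmul _ iha _ ihb

/-- the Hessian does not vanish at the nondegenerate classes -/
theorem hes_of_main.{u₁, u₂, u₃, u₄} [Module.Finite ℂ H] (hn2 : 2 ≤ n)
    (hd0 : dg 0 = Submodule.span ℂ {1})
    (hmul : ∀ i j, ∀ x ∈ dg i, ∀ y ∈ dg j, x * y ∈ dg (i + j))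
    (hbot : ∀ k, n < k → ∀ x ∈ dg k, x = 0) (I : H →ₗ[ℂ] ℂ)
    (hI : ∀ k, k ≠ n → ∀ x ∈ dg k, I x = 0) (hI' : ∀ x ∈ dg n, I x = 0 → x = 0)
    (hPD : ∀ x : H, (∀ y : H, I (x * y) = 0) → x = 0)
    (w₀ : H) (hw₀ : w₀ ∈ dg 1) (hw₀n : I (w₀ ^ n) ≠ 0)
    (B : Type) [AddCommGroup B] (g : GWNumbers B H) (hg : g.IsAspherical I)
    (A : H → H → H → H) (hA : IsGWConnection I (dg 1) g.prepotential A)
    (S : Type) [NormedAddCommGroup S] [NormedSpace ℂ S] (c : S ≃ₗ[ℂ] dg 1) (t₀ : S)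
    (hloc : IsLocallySubquotientOfSemisimple.{u₁, u₂, u₃, u₄}
      (fun t v h => A (c t) (c v) h) (filt dg) t₀) :
    ∀ w ∈ dg 1, I (w ^ n) ≠ 0 → ∀ u ∈ dg 1,
      (∀ v ∈ dg 1, I (w ^ (n - 2) * (u * v)) = 0) → u = 0 := by
  intro w hw hwn u hu huv
  obtain ⟨Λ, h1, -⟩ := Pool.Agent.K6.H85.GW.main.{u₁, u₂, u₃, u₄} (by omega) hd0 hmul hbot I hI hI'
    hPD w₀ hw₀ hw₀n B g hg A hA S c t₀ hloc
  have hbij := (h1 w hw hwn).2.2.2 1 (by omega)
  have hpow : ∀ (w : H), w ∈ dg 1 → ∀ k : ℕ, w ^ k ∈ dg k := by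
    intro w hw k
    induction k with
    | zero => rw [pow_zero, hd0]; exact Submodule.mem_span_singleton_self _
    | succ k ih => rw [pow_succ]; exact hmul _ _ _ ih _ hw
  have hVdg : ∀ k : ℕ, ∀ x ∈ dg 1 ^ k, x ∈ dg k := by
    intro k
    induction k with
    | zero =>
      intro x hx
      rw [pow_zero] at hx
      obtain ⟨z, rfl⟩ := Submodule.mem_one.1 hx
      rw [Algebra.algebraMap_eq_smul_one, hd0]
      exact Submodule.smul_mem _ _ (Submodule.mem_span_singleton_self _)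
    | succ k ih =>
      intro x hx
      rw [pow_succ] at hx
      refine Submodule.mul_induction_on hx ?_ ?_
      · intro a ha b hb
        exact hmul _ _ _ (ih a ha) _ hb
      · intro a b ha hb
        exact (dg (k + 1)).add_mem ha hb
  have hzR : w ^ (n - 2) * u ∈ Algebra.adjoin ℂ (dg 1 : Set H) :=
    Subalgebra.mul_mem _ (Subalgebra.pow_mem _ (Algebra.subset_adjoin hw) _)
      (Algebra.subset_adjoin hu)
  have hzd : w ^ (n - 2) * u ∈ dg (n - 2 + 1) := hmul _ _ _ (hpow w hw _) _ hu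
  have hz : w ^ (n - 2) * u = 0 := by
    by_contra hb0
    refine criterion.{u₁, u₂, u₃, u₄} hd0 hmul hbot I hI hI' hPD w₀ hw₀ hw₀n _ hzR hb0 ?_ B g hg A
      hA S c t₀ hloc
    intro a ha
    have ha' := adjoin_le_iSup (dg 1) ha
    clear ha
    induction ha' using Submodule.iSup_induction' with
    | mem k x hx =>
      by_cases hk : k = 1
      · subst hk
        rw [pow_one] at hx
        rw [mul_comm, mul_assoc]
        exact huv x hx
      · exact hI (k + (n - 2 + 1)) (by omega) _ (hmul _ _ _ (hVdg k x hx) _ hzd)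
    | zero => rw [zero_mul, map_zero]
    | add a b _ _ ha hb => rw [add_mul, map_add, ha, hb, add_zero]
  have hu1 : u ∈ (Rk dg 1 : Set H) := ⟨Algebra.subset_adjoin hu, hu⟩
  have h01 : (0 : H) ∈ (Rk dg 1 : Set H) := Submodule.zero_mem _
  refine hbij.injOn hu1 h01 ?_
  change w ^ (n - 2 * 1) * u = w ^ (n - 2 * 1) * 0
  rw [mul_one, hz, mul_zero]

end main

end Pool.Agent.K6.H85.JL
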